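import Pool.Agent.X82.SepFinal

/-!
# MP_873812_co: linear uniform hypergraphs of large average degree and separation choice number
at most three

For every `r ≥ 49` there are linear `r`-uniform hypergraphs of arbitrarily large average degree
whose separation choice number is at most `3`.  So the assertion of Q1 is false.
-/

set_option autoImplicit false

namespace Pool.Agent.Results.MP_873812_co.SepChoiceThree

open Finset Filter Pool.Agent.X82.SepThree

/-- The average degree `r |E| / |V|` of an `r`-uniform hypergraph with vertex set `Fin n` and edge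
set `H`. -/
noncomputable def avgDegree (r n : ℕ) (H : Finset (Finset (Fin n))) : ℝ :=
  (r : ℝ) * (H.card : ℝ) / (n : ℝ)

/-- The separation choice number: the least `k` such that there is a proper colouring from every
list assignment with lists of size at least `k` in which the lists of any two different vertices
of a common edge share at most one colour (`SepColourable`). -/
noncomputable def chSep {n : ℕ} (H : Finset (Finset (Fin n))) : ℕ :=
  sInf {k | SepColourable H k}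

/-- For all lists of size at least `k` and all maps `α` from the edges to colours there is a
colouring from the lists adapted to `α`. -/
def AdaptColourable {n : ℕ} (H : Finset (Finset (Fin n))) (k : ℕ) : Prop :=
  ∀ L : Fin n → Finset ℕ, (∀ v, k ≤ (L v).card) → ∀ α : Finset (Fin n) → ℕ,
    ∃ φ : Fin n → ℕ, (∀ v, φ v ∈ L v) ∧ ∀ e ∈ H, ¬ ∀ v ∈ e, φ v = α e

/-- The adaptable choice number. -/
noncomputable def chAd {n : ℕ} (H : Finset (Finset (Fin n))) : ℕ :=
  sInf {k | AdaptColourable H k}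

/-- The assertion of Q1. -/
def Q1 : Prop :=
  ∀ r : ℕ, 3 ≤ r → ∃ f g : ℝ → ℝ, Tendsto f atTop atTop ∧ Tendsto g atTop atTop ∧
    ∀ n : ℕ, 0 < n → ∀ H : Finset (Finset (Fin n)), Uniform r H → Linear H →
      f (avgDegree r n H) ≤ (chSep H : ℝ) ∧ g (avgDegree r n H) ≤ (chAd H : ℝ)

theorem result :
    (∀ r : ℕ, 49 ≤ r → ∀ D : ℝ, ∃ n : ℕ, 0 < n ∧ ∃ H : Finset (Finset (Fin n)),
      Uniform r H ∧ Linear H ∧ D ≤ avgDegree r n H ∧ SepColourable H 3 ∧ chSep H ≤ 3) ∧
    ¬ Q1 := by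
  have main : ∀ r : ℕ, 49 ≤ r → ∀ D : ℝ, ∃ n : ℕ, 0 < n ∧ ∃ H : Finset (Finset (Fin n)),
      Uniform r H ∧ Linear H ∧ D ≤ avgDegree r n H ∧ SepColourable H 3 ∧ chSep H ≤ 3 := by
    intro r hr D
    obtain ⟨k, rfl⟩ : ∃ k, r = k + 2 := ⟨r - 2, by omega⟩
    obtain ⟨x, hx⟩ : ∃ x : ℕ, x = 160 * (k + 2) ^ 4 + 8 * 5 ^ (k + 2) + ⌈D⌉₊ := ⟨_, rfl⟩
    have hx0 : 0 < x := by
      have : 0 < 5 ^ (k + 2) := by positivity
      omega
    obtain ⟨H, h1, h2, h3, h4⟩ := exists_hypergraph k x (by omega) (by omega) (by omega)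
    refine ⟨x ^ 14, by positivity, H, h1, h2, ?_, h4, Nat.sInf_le h4⟩
    have hD : D ≤ (x : ℝ) := by
      have h5 : D ≤ (⌈D⌉₊ : ℝ) := Nat.le_ceil D
      have h6 : (⌈D⌉₊ : ℝ) ≤ (x : ℝ) := by
        exact_mod_cast (by omega : ⌈D⌉₊ ≤ x)
      linarith
    have hxR : (1 : ℝ) ≤ (x : ℝ) := by exact_mod_cast hx0
    have h3R : (x : ℝ) ^ 20 ≤ 2 * (H.card : ℝ) := by exact_mod_cast h3
    have hn : (0 : ℝ) < ((x ^ 14 : ℕ) : ℝ) := by
      have : 0 < x ^ 14 := by positivity
      exact_mod_cast this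
    rw [avgDegree, le_div_iff₀ hn]
    have hk : (2 : ℝ) ≤ ((k + 2 : ℕ) : ℝ) := by
      have : 2 ≤ k + 2 := by omega
      exact_mod_cast this
    have h7 : (x : ℝ) * ((x ^ 14 : ℕ) : ℝ) ≤ (x : ℝ) ^ 20 := by
      push_cast
      calc (x : ℝ) * (x : ℝ) ^ 14 = (x : ℝ) ^ 15 := by ring
        _ ≤ (x : ℝ) ^ 20 := pow_le_pow_right₀ hxR (by norm_num)
    calc D * ((x ^ 14 : ℕ) : ℝ) ≤ (x : ℝ) * ((x ^ 14 : ℕ) : ℝ) :=
          mul_le_mul_of_nonneg_right hD hn.le
      _ ≤ (x : ℝ) ^ 20 := h7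
      _ ≤ 2 * (H.card : ℝ) := h3R
      _ ≤ ((k + 2 : ℕ) : ℝ) * (H.card : ℝ) :=
          mul_le_mul_of_nonneg_right hk (Nat.cast_nonneg _)
  refine ⟨main, ?_⟩
  intro hQ
  obtain ⟨f, g, hf, _, h⟩ := hQ 49 (by norm_num)
  obtain ⟨D, hD⟩ := (tendsto_atTop.mp hf 4).exists_forall_of_atTop
  obtain ⟨n, hn, H, h1, h2, h3, _, h5⟩ := main 49 le_rfl D
  have h6 := (h n hn H h1 h2).1
  have h7 := hD _ h3
  have h8 : (chSep H : ℝ) ≤ 3 := by exact_mod_cast h5
  linarith

end Pool.Agent.Results.MP_873812_co.SepChoiceThree
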